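import Mathlib

/-!
A variational upper-bound predicate for the Ky Fan norms and its basic properties.
-/

set_option autoImplicit false

namespace Pool.Agent.P.MP_08c3d6_an

open Finset

variable {E : Type*} [NormedAddCommGroup E] [InnerProductSpace ℂ E] {ι : Type*} [Fintype ι]

/-- Admissible families: Bessel inequality and total square norm at most `r`. -/
def Adm (r : ℝ) (x : ι → E) : Prop :=
  (∀ v, ∑ j, ‖inner ℂ (x j) v‖ ^ 2 ≤ ‖v‖ ^ 2) ∧ ∑ j, ‖x j‖ ^ 2 ≤ r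

/-- The pairing of an operator with two families. -/
noncomputable def pr (x y : ι → E) : (E →ₗ[ℂ] E) →ₗ[ℂ] ℂ where
  toFun Y := ∑ j, inner ℂ (x j) (Y (y j))
  map_add' Y Z := by simp [sum_add_distrib]
  map_smul' c Y := by simp [mul_sum]

lemma pr_apply (x y : ι → E) (Y : E →ₗ[ℂ] E) : pr x y Y = ∑ j, inner ℂ (x j) (Y (y j)) := rfl

/-- `Bd ι r Y M`: all pairings of `Y` with admissible families have real part at most `M`. -/
def Bd (ι : Type*) [Fintype ι] (r : ℝ) (Y : E →ₗ[ℂ] E) (M : ℝ) : Prop :=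
  ∀ x y : ι → E, Adm r x → Adm r y → (pr x y Y).re ≤ M

lemma adm_zero {r : ℝ} (hr : 0 ≤ r) : Adm r (0 : ι → E) := by
  refine ⟨fun v => ?_, ?_⟩ <;> simp [hr]

lemma adm_map {r : ℝ} {x : ι → E} (hx : Adm r x) (K K' : E → E)
    (hK : ∀ a b, inner ℂ (K a) b = inner ℂ a (K' b)) (h1 : ∀ v, ‖K v‖ ≤ ‖v‖)
    (h2 : ∀ v, ‖K' v‖ ≤ ‖v‖) : Adm r (fun j => K (x j)) := by
  refine ⟨fun v => ?_, ?_⟩
  · simp only [hK]
    exact (hx.1 _).trans (pow_le_pow_left₀ (norm_nonneg _) (h2 v) 2)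
  · exact (sum_le_sum fun j _ => pow_le_pow_left₀ (norm_nonneg _) (h1 _) 2).trans hx.2

lemma bd_of_opbound {r κ : ℝ} (Z : E →ₗ[ℂ] E) (hκ : 0 ≤ κ) (h : ∀ v, ‖Z v‖ ≤ κ * ‖v‖) :
    Bd ι r Z (κ * r) := by
  intro x y hx hy
  rw [pr_apply, Complex.re_sum]
  have h1 : ∀ j, (inner ℂ (x j) (Z (y j))).re ≤ κ * ((‖x j‖ ^ 2 + ‖y j‖ ^ 2) / 2) := by
    intro j
    have a1 : (inner ℂ (x j) (Z (y j))).re ≤ ‖x j‖ * ‖Z (y j)‖ :=
      (Complex.re_le_norm _).trans (norm_inner_le_norm _ _)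
    have a2 : ‖x j‖ * ‖Z (y j)‖ ≤ ‖x j‖ * (κ * ‖y j‖) :=
      mul_le_mul_of_nonneg_left (h _) (norm_nonneg _)
    have a3 : ‖x j‖ * ‖y j‖ ≤ (‖x j‖ ^ 2 + ‖y j‖ ^ 2) / 2 := by nlinarith [sq_nonneg (‖x j‖ - ‖y j‖)]
    have a4 := mul_le_mul_of_nonneg_left a3 hκ
    nlinarith
  refine (sum_le_sum fun j _ => h1 j).trans ?_
  rw [← mul_sum, ← sum_div, sum_add_distrib]
  refine mul_le_mul_of_nonneg_left ?_ hκ
  linarith [hx.2, hy.2]

lemma exists_opbound [FiniteDimensional ℂ E] (Z : E →ₗ[ℂ] E) :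
    ∃ κ : ℝ, 0 ≤ κ ∧ ∀ v, ‖Z v‖ ≤ κ * ‖v‖ :=
  ⟨‖LinearMap.toContinuousLinearMap Z‖, norm_nonneg _,
    fun v => (LinearMap.toContinuousLinearMap Z).le_opNorm v⟩

lemma bd_smul {r M : ℝ} {c : ℂ} (hc : c ≠ 0) (Y : E →ₗ[ℂ] E) (h : Bd ι r (c • Y) (‖c‖ * M)) :
    Bd ι r Y M := by
  intro x y hx hy
  have hn : (0 : ℝ) < ‖c‖ := norm_pos_iff.2 hc
  have hn' : ((‖c‖ : ℝ) : ℂ) ≠ 0 := by exact_mod_cast hn.ne'
  set u : ℂ := c / (‖c‖ : ℝ) with hu
  have hu1 : ‖u‖ = 1 := by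
    rw [hu, norm_div, Complex.norm_real, norm_norm, div_self hn.ne']
  have hx' := adm_map hx (fun v => u • v) (fun v => (starRingEnd ℂ u) • v)
    (fun a b => by simp only [inner_smul_left, inner_smul_right])
    (fun v => by simp [norm_smul, hu1]) (fun v => by simp [norm_smul, hu1])
  have h1 := h _ y hx' hy
  have h2 : pr (fun j => u • x j) y (c • Y) =
      ((‖c‖ : ℝ) : ℂ) * pr x y Y := by
    have h3 : (starRingEnd ℂ u) * c = ((‖c‖ : ℝ) : ℂ) := by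
      rw [hu, map_div₀, Complex.conj_ofReal, div_mul_eq_mul_div, mul_comm, Complex.mul_conj,
        Complex.normSq_eq_norm_sq]
      push_cast
      field_simp
    simp only [pr_apply, LinearMap.smul_apply, inner_smul_left, inner_smul_right, mul_sum]
    refine sum_congr rfl fun j _ => ?_
    rw [← h3]; ring
  rw [h2, Complex.re_ofReal_mul] at h1
  exact le_of_mul_le_mul_left h1 hn

lemma eq_zero_of_bd [Nonempty ι] {r : ℝ} (hr : 1 ≤ r) (Y : E →ₗ[ℂ] E) (h : Bd ι r Y 0) :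
    Y = 0 := by
  classical
  obtain ⟨j0⟩ := ‹Nonempty ι›
  have hadm : ∀ a : E, ‖a‖ ≤ 1 → Adm r (Pi.single j0 a : ι → E) := by
    intro a ha
    refine ⟨fun v => ?_, ?_⟩
    · rw [sum_eq_single j0 (fun j _ hj => by simp [Pi.single_eq_of_ne hj]) (by simp)]
      simp only [Pi.single_eq_same]
      refine pow_le_pow_left₀ (norm_nonneg _) ((norm_inner_le_norm _ _).trans ?_) 2
      nlinarith [norm_nonneg v]
    · rw [sum_eq_single j0 (fun j _ hj => by simp [Pi.single_eq_of_ne hj]) (by simp)]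
      simp only [Pi.single_eq_same]
      nlinarith [norm_nonneg a]
  ext v
  set t : ℝ := 1 / (1 + ‖v‖ + ‖Y v‖) with ht
  have hp : 0 < 1 + ‖v‖ + ‖Y v‖ := by positivity
  have ht0 : 0 < t := by positivity
  have h1 : ‖(t : ℂ) • v‖ ≤ 1 := by
    rw [norm_smul, Complex.norm_real, Real.norm_of_nonneg ht0.le, ht, div_mul_eq_mul_div,
      div_le_one hp]
    linarith [norm_nonneg (Y v)]
  have h2 : ‖(t : ℂ) • Y v‖ ≤ 1 := by
    rw [norm_smul, Complex.norm_real, Real.norm_of_nonneg ht0.le, ht, div_mul_eq_mul_div,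
      div_le_one hp]
    linarith [norm_nonneg v]
  have h3 := h _ _ (hadm _ h2) (hadm _ h1)
  rw [pr_apply, sum_eq_single j0 (fun j _ hj => by simp [Pi.single_eq_of_ne hj]) (by simp)] at h3
  simp only [Pi.single_eq_same, map_smul] at h3
  rw [inner_self_eq_norm_sq_to_K] at h3
  have h4 : ‖(t : ℂ) • Y v‖ ^ 2 ≤ 0 := by
    have : ((((‖(t : ℂ) • Y v‖ : ℝ) : ℂ)) ^ 2).re = ‖(t : ℂ) • Y v‖ ^ 2 := by
      rw [← Complex.ofReal_pow, Complex.ofReal_re]
    rw [← this]; exact h3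
  have h5 : ‖(t : ℂ) • Y v‖ = 0 := by
    have := sq_nonneg ‖(t : ℂ) • Y v‖
    exact pow_eq_zero_iff (two_ne_zero) |>.1 (le_antisymm h4 this)
  rw [norm_eq_zero, smul_eq_zero] at h5
  rcases h5 with h5 | h5
  · exact absurd (by exact_mod_cast h5) ht0.ne'
  · simpa using h5

lemma norm_one_add_le (S : E →ₗ[ℂ] E) (hS : S.IsSymmetric) {κ : ℝ}
    (h : ∀ v, ‖S v‖ ≤ κ * ‖v‖) (s : ℝ) (v : E) :
    ‖v + ((s : ℂ) * Complex.I) • S v‖ ≤ (1 + s ^ 2 * κ ^ 2) * ‖v‖ := by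
  have h1 : RCLike.re (inner ℂ v (((s : ℂ) * Complex.I) • S v)) = 0 := by
    have h2 : (inner ℂ v (S v)).im = 0 := by
      have := hS.conj_inner_sym v v
      rw [hS v v] at this
      exact Complex.conj_eq_iff_im.1 this
    rw [inner_smul_right]
    simp [h2]
  have h3 := norm_add_sq (𝕜 := ℂ) v (((s : ℂ) * Complex.I) • S v)
  rw [h1, norm_smul, norm_mul, Complex.norm_I, Complex.norm_real, mul_one, mul_pow,
    Real.norm_eq_abs, sq_abs] at h3
  have h4 : ‖S v‖ ^ 2 ≤ (κ * ‖v‖) ^ 2 := pow_le_pow_left₀ (norm_nonneg _) (h v) 2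
  have h5 : 0 ≤ s ^ 2 * κ ^ 2 := by positivity
  refine le_of_sq_le_sq ?_ (by positivity)
  rw [h3]
  have h6 := mul_le_mul_of_nonneg_left h4 (sq_nonneg s)
  have h7 : 0 ≤ (s ^ 2 * κ ^ 2) * ‖v‖ ^ 2 := by positivity
  have h8 : 0 ≤ (s ^ 2 * κ ^ 2) ^ 2 * ‖v‖ ^ 2 := by positivity
  nlinarith

lemma adm_step {r : ℝ} {x : ι → E} (hx : Adm r x) (S : E →ₗ[ℂ] E) (hS : S.IsSymmetric) {κ : ℝ}
    (h : ∀ v, ‖S v‖ ≤ κ * ‖v‖) (s : ℝ) :
    Adm r (fun j => (((1 + s ^ 2 * κ ^ 2)⁻¹ : ℝ) : ℂ) • (x j + ((s : ℂ) * Complex.I) • S (x j))) := by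
  have hp : 0 < 1 + s ^ 2 * κ ^ 2 := by positivity
  have hb : ∀ (t : ℝ), t ^ 2 = s ^ 2 → ∀ v : E,
      ‖(((1 + s ^ 2 * κ ^ 2)⁻¹ : ℝ) : ℂ) • (v + ((t : ℂ) * Complex.I) • S v)‖ ≤ ‖v‖ := by
    intro t ht v
    rw [norm_smul, Complex.norm_real, Real.norm_of_nonneg (inv_pos.2 hp).le,
      inv_mul_le_iff₀ hp, ← ht]
    exact norm_one_add_le S hS h t v
  exact adm_map hx
    (fun v => (((1 + s ^ 2 * κ ^ 2)⁻¹ : ℝ) : ℂ) • (v + ((s : ℂ) * Complex.I) • S v))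
    (fun v => (((1 + s ^ 2 * κ ^ 2)⁻¹ : ℝ) : ℂ) • (v + (((-s : ℝ) : ℂ) * Complex.I) • S v))
    (fun a b => by
      simp only [inner_smul_left,
        inner_smul_right, inner_add_left, inner_add_right, Complex.conj_ofReal, map_mul,
        Complex.conj_I, hS a b]
      push_cast; ring)
    (fun v => hb s rfl v) (fun v => hb (-s) (by ring) v)

/-- Dissipativity of `Y ↦ i (A Y + Y B)` in both directions. -/
lemma bd_dissipative [FiniteDimensional ℂ E] {r : ℝ} (hr : 0 ≤ r) (A B : E →ₗ[ℂ] E)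
    (hA : A.IsSymmetric) (hB : B.IsSymmetric) (w : ℂ) (hw : w.re = 0) (Y : E →ₗ[ℂ] E) (M : ℝ)
    (h : Bd ι r (Y + w • (A * Y + Y * B)) M) : Bd ι r Y M := by
  obtain ⟨κ1, -, hκ1⟩ := exists_opbound A
  obtain ⟨κ2, -, hκ2⟩ := exists_opbound B
  obtain ⟨κ3, hκ3', hκ3⟩ := exists_opbound Y
  obtain ⟨κ4, hκ4', hκ4⟩ := exists_opbound (A * Y * B)
  set β := w.im with hβ
  have hwβ : w = (β : ℂ) * Complex.I := by apply Complex.ext <;> simp [hw, hβ]
  set T : Set ℝ := {t | ∃ x y : ι → E, Adm r x ∧ Adm r y ∧ t = (pr x y Y).re} with hT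
  have hbdd : BddAbove T := ⟨κ3 * r, by
    rintro t ⟨x, y, hx, hy, rfl⟩
    exact bd_of_opbound Y hκ3' hκ3 x y hx hy⟩
  have hne : T.Nonempty := ⟨_, 0, 0, adm_zero hr, adm_zero hr, rfl⟩
  have hN : ∀ x y : ι → E, Adm r x → Adm r y → (pr x y Y).re ≤ sSup T :=
    fun x y hx hy => le_csSup hbdd ⟨x, y, hx, hy, rfl⟩
  set N := sSup T with hNdef
  have key : ∀ s : ℝ, 0 < s → (1 + s) * N ≤
      s * M + (1 + (s * β) ^ 2 * κ1 ^ 2) * (1 + (s * β) ^ 2 * κ2 ^ 2) * N +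
        (s * β) ^ 2 * (κ4 * r) := by
    intro s hs
    have hs1 : 0 < 1 + s := by positivity
    rw [← le_div_iff₀' hs1]
    refine csSup_le hne ?_
    rintro t ⟨x, y, hx, hy, rfl⟩
    rw [le_div_iff₀' hs1]
    have p1 : 0 < 1 + (s * β) ^ 2 * κ1 ^ 2 := by positivity
    have p2 : 0 < 1 + (s * β) ^ 2 * κ2 ^ 2 := by positivity
    have hx' := adm_step hx A hA hκ1 (s * β)
    have hy' := adm_step hy B hB hκ2 (-(s * β))
    rw [neg_sq] at hy'
    have a1 := hN _ _ hx' hy'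
    have a2 := h x y hx hy
    have a3 := bd_of_opbound (ι := ι) (r := r) _ hκ4' hκ4 x y hx hy
    have a4 : (((1 + s : ℝ)) : ℂ) * pr x y Y = (s : ℂ) * pr x y (Y + w • (A * Y + Y * B)) +
        (((1 + (s * β) ^ 2 * κ1 ^ 2) * (1 + (s * β) ^ 2 * κ2 ^ 2) : ℝ) : ℂ) *
          pr (fun j => (((1 + (s * β) ^ 2 * κ1 ^ 2)⁻¹ : ℝ) : ℂ) •
              (x j + (((s * β : ℝ) : ℂ) * Complex.I) • A (x j)))
            (fun j => (((1 + (s * β) ^ 2 * κ2 ^ 2)⁻¹ : ℝ) : ℂ) •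
              (y j + (((-(s * β) : ℝ) : ℂ) * Complex.I) • B (y j))) Y +
        (((s * β) ^ 2 : ℝ) : ℂ) * pr x y (A * Y * B) := by
      simp only [pr_apply, mul_sum, ← sum_add_distrib]
      refine sum_congr rfl fun j _ => ?_
      have q1 : (((1 + (s * β) ^ 2 * κ1 ^ 2 : ℝ)) : ℂ) ≠ 0 := by exact_mod_cast p1.ne'
      have q2 : (((1 + (s * β) ^ 2 * κ2 ^ 2 : ℝ)) : ℂ) ≠ 0 := by exact_mod_cast p2.ne'
      simp only [LinearMap.smul_apply, LinearMap.add_apply, Module.End.mul_apply, inner_smul_left,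
        inner_smul_right, inner_add_left, inner_add_right, Complex.conj_ofReal, map_mul, map_add,
        map_smul, Complex.conj_I, hA (x j), hwβ, Complex.ofReal_mul (1 + (s * β) ^ 2 * κ1 ^ 2)]
      rw [Complex.ofReal_inv, Complex.ofReal_inv]
      generalize (((1 + (s * β) ^ 2 * κ1 ^ 2 : ℝ)) : ℂ) = c1 at q1 ⊢
      generalize (((1 + (s * β) ^ 2 * κ2 ^ 2 : ℝ)) : ℂ) = c2 at q2 ⊢
      push_cast
      field_simp
      linear_combination (-(s : ℂ) ^ 2 * (β : ℂ) ^ 2 * inner ℂ (x j) (A (Y (B (y j))))) *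
        Complex.I_sq
    have a5 := congrArg Complex.re a4
    simp only [Complex.add_re, Complex.re_ofReal_mul] at a5
    rw [a5]
    have b1 := mul_le_mul_of_nonneg_left a2 hs.le
    have b2 := mul_le_mul_of_nonneg_left a1 (mul_pos p1 p2).le
    have b3 := mul_le_mul_of_nonneg_left a3 (sq_nonneg (s * β))
    linarith
  have hNM : N ≤ M := by
    have hlim : Filter.Tendsto (fun s : ℝ => M + s * (β ^ 2 * (κ1 ^ 2 + κ2 ^ 2) * N +
        s ^ 2 * β ^ 4 * κ1 ^ 2 * κ2 ^ 2 * N + β ^ 2 * (κ4 * r))) (nhdsWithin 0 (Set.Ioi 0))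
        (nhds M) := by
      refine Filter.Tendsto.mono_left ?_ nhdsWithin_le_nhds
      have hc : Continuous (fun s : ℝ => M + s * (β ^ 2 * (κ1 ^ 2 + κ2 ^ 2) * N +
        s ^ 2 * β ^ 4 * κ1 ^ 2 * κ2 ^ 2 * N + β ^ 2 * (κ4 * r))) := by fun_prop
      simpa using hc.tendsto 0
    refine ge_of_tendsto hlim ?_
    filter_upwards [self_mem_nhdsWithin] with s hs
    have hs' : 0 < s := hs
    refine le_of_mul_le_mul_left ?_ hs'
    have := key s hs'
    nlinarith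
  intro x y hx hy
  exact (hN x y hx hy).trans hNM

/-- The Ky Fan upper bound. -/
lemma bd_kyFan [FiniteDimensional ℂ E] {n : ℕ} (hn : Module.finrank ℂ E = n) (r : ℕ)
    (hr : r ≤ n) (Y : E →ₗ[ℂ] E) :
    Bd ι (r : ℝ) Y (∑ i ∈ range r, Y.singularValues i) := by
  classical
  intro x y hx hy
  set b := Y.isSymmetric_adjoint_comp_self.eigenvectorBasis hn with hb
  set σ : Fin n → ℝ := fun i => Y.singularValues i with hσ
  have hσ0 : ∀ i, 0 ≤ σ i := fun i => Y.singularValues_nonneg i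
  have hz : ∀ i l, inner ℂ (Y (b i)) (Y (b l)) = if i = l then ((σ l ^ 2 : ℝ) : ℂ) else 0 := by
    intro i l
    have e1 := Y.isSymmetric_adjoint_comp_self.apply_eigenvectorBasis hn l
    rw [← Y.sq_singularValues_fin hn l, LinearMap.comp_apply] at e1
    rw [← LinearMap.adjoint_inner_right, e1, inner_smul_right,
      orthonormal_iff_ite.1 b.orthonormal]
    split_ifs <;> simp [hσ]
  set u : Fin n → E := fun i => (((σ i)⁻¹ : ℝ) : ℂ) • Y (b i) with hu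
  have hYb : ∀ i, Y (b i) = ((σ i : ℝ) : ℂ) • u i := by
    intro i
    by_cases h0 : σ i = 0
    · have := hz i i
      rw [if_pos rfl, h0] at this
      have h1 : Y (b i) = 0 := by simpa using this
      simp [h1, h0]
    · simp only [hu, smul_smul]
      rw [← Complex.ofReal_mul, mul_inv_cancel₀ h0]; simp
  have hon : Orthonormal ℂ (fun i : {i // σ i ≠ 0} => u i) := by
    rw [orthonormal_iff_ite]
    rintro ⟨i, hi⟩ ⟨l, hl⟩
    simp only [hu, inner_smul_left, inner_smul_right, hz, Complex.conj_ofReal, Subtype.mk.injEq]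
    split_ifs with hil
    · subst hil
      rw [← Complex.ofReal_mul, ← Complex.ofReal_mul]
      have : (σ i)⁻¹ * ((σ i)⁻¹ * σ i ^ 2) = 1 := by field_simp
      rw [this]; simp
    · simp
  have hu0 : ∀ i, σ i = 0 → u i = 0 := fun i hi => by simp [hu, hi]
  have hu1 : ∀ i, ‖u i‖ ≤ 1 := by
    intro i
    by_cases h0 : σ i = 0
    · simp [hu0 i h0]
    · exact (hon.1 ⟨i, h0⟩).le
  have hbes : ∀ v : E, ∑ i, ‖inner ℂ v (u i)‖ ^ 2 ≤ ‖v‖ ^ 2 := by
    intro v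
    have e1 := hon.sum_inner_products_le (s := univ) v
    have e2 : ∑ i, ‖inner ℂ v (u i)‖ ^ 2 = ∑ i : {i // σ i ≠ 0}, ‖inner ℂ (u i) v‖ ^ 2 := by
      rw [← Finset.sum_subtype (univ.filter fun i => σ i ≠ 0) (by simp)
        (fun i => ‖inner ℂ (u i) v‖ ^ 2), sum_filter]
      refine sum_congr rfl fun i _ => ?_
      split_ifs with h0
      · rw [norm_inner_symm]
      · simp [hu0 i (not_not.1 h0)]
    rw [e2]; exact e1
  set t : Fin n → ℝ := fun i =>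
    (∑ j, ‖inner ℂ (x j) (u i)‖ ^ 2 + ∑ j, ‖inner ℂ (y j) (b i)‖ ^ 2) / 2 with ht
  have ht0 : ∀ i, 0 ≤ t i := fun i => by simp only [ht]; positivity
  have ht1 : ∀ i, t i ≤ 1 := by
    intro i
    have e1 := hx.1 (u i)
    have e2 := hy.1 (b i)
    rw [b.orthonormal.1 i] at e2
    have e3 : ‖u i‖ ^ 2 ≤ 1 := by nlinarith [hu1 i, norm_nonneg (u i)]
    simp only [ht]; linarith
  have hts : ∑ i, t i ≤ r := by
    simp only [ht]
    rw [← sum_div, sum_add_distrib, sum_comm, sum_comm (f := fun i j => ‖inner ℂ (y j) (b i)‖ ^ 2)]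
    have e1 : ∑ j, ∑ i, ‖inner ℂ (x j) (u i)‖ ^ 2 ≤ r :=
      (sum_le_sum fun j _ => hbes (x j)).trans hx.2
    have e2 : ∑ j, ∑ i, ‖inner ℂ (y j) (b i)‖ ^ 2 ≤ r := by
      refine (sum_le_sum fun j _ => ?_).trans hy.2
      have := b.orthonormal.sum_inner_products_le (s := univ) (y j)
      simpa only [norm_inner_symm (b _)] using this
    linarith
  have hmain : (pr x y Y).re ≤ ∑ i, σ i * t i := by
    have e1 : pr x y Y = ∑ i, ∑ j, (σ i : ℂ) * (inner ℂ (b i) (y j) * inner ℂ (x j) (u i)) := by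
      rw [pr_apply, sum_comm]
      refine sum_congr rfl fun j _ => ?_
      conv_lhs => rw [← b.sum_repr' (y j)]
      rw [map_sum, inner_sum]
      refine sum_congr rfl fun i _ => ?_
      rw [map_smul, hYb, inner_smul_right, inner_smul_right]; ring
    rw [e1, Complex.re_sum]
    refine sum_le_sum fun i _ => ?_
    rw [← mul_sum, Complex.re_ofReal_mul]
    refine mul_le_mul_of_nonneg_left ?_ (hσ0 i)
    simp only [ht]
    rw [← sum_add_distrib, sum_div, Complex.re_sum]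
    refine sum_le_sum fun j _ => (Complex.re_le_norm _).trans ?_
    rw [norm_mul, norm_inner_symm (b i)]
    nlinarith [sq_nonneg (‖inner ℂ (x j) (u i)‖ - ‖inner ℂ (y j) (b i)‖)]
  refine hmain.trans ?_
  set θ := Y.singularValues r with hθ
  have hθ0 : 0 ≤ θ := Y.singularValues_nonneg r
  have e1 : ∀ i : Fin n, σ i * t i ≤ (if (i : ℕ) < r then σ i - θ else 0) + θ * t i := by
    intro i
    split_ifs with hi
    · have : θ ≤ σ i := Y.singularValues_antitone hi.le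
      nlinarith [ht1 i]
    · have : σ i ≤ θ := Y.singularValues_antitone (not_lt.1 hi)
      nlinarith [ht0 i]
  refine (sum_le_sum fun i _ => e1 i).trans ?_
  rw [sum_add_distrib, ← mul_sum]
  have e2 : ∑ i : Fin n, (if (i : ℕ) < r then σ i - θ else 0) =
      ∑ i ∈ range r, (Y.singularValues i - θ) := by
    rw [Fin.sum_univ_eq_sum_range (fun i => if i < r then Y.singularValues i - θ else 0) n,
      ← sum_filter]
    congr 1
    ext i; simp only [mem_filter, mem_range]; omega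
  rw [e2, sum_sub_distrib, sum_const, card_range, nsmul_eq_mul]
  have := mul_le_mul_of_nonneg_left hts hθ0
  nlinarith

end Pool.Agent.P.MP_08c3d6_an
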