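import Mathlib

/-!
A partial fraction identity for `(1 + X) ^ m` along the roots of unity, and the abstract
dissipativity argument.
-/

set_option autoImplicit false

namespace Pool.Agent.P.MP_08c3d6_an

open Finset Polynomial

lemma exists_weights (m : ℕ) :
    ∃ w : ℕ → ℂ, (∀ j, (w j).re = 0) ∧
      ((1 + X : ℂ[X]) ^ m = ∏ l ∈ range m, (1 + C (w l) * X) +
        ∑ j ∈ range m, C (1 + w j) * X * ∏ l ∈ (range m).erase j, (1 + C (w l) * X)) := by
  classical
  have hμ := Complex.isPrimitiveRoot_exp (m + 1) (by omega)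
  set μ := Complex.exp (2 * Real.pi * Complex.I / ((m + 1 : ℕ) : ℂ)) with hμdef
  have hnorm : ‖μ‖ = 1 := hμ.norm'_eq_one (by omega)
  have hne : ∀ l ∈ range m, 1 - μ ^ (l + 1) ≠ 0 := by
    intro l hl h
    have h1 : μ ^ (l + 1) = 1 := by linear_combination -h
    exact hμ.pow_ne_one_of_pos_of_lt (by omega) (by have := mem_range.1 hl; omega) h1
  refine ⟨fun l => (1 + μ ^ (l + 1)) / (1 - μ ^ (l + 1)), fun j => ?_, ?_⟩
  · have h1 : ‖μ ^ (j + 1)‖ = 1 := by rw [norm_pow, hnorm, one_pow]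
    show ((1 + μ ^ (j + 1)) / (1 - μ ^ (j + 1))).re = 0
    generalize μ ^ (j + 1) = z at h1 ⊢
    have h2 : z.re ^ 2 + z.im ^ 2 = 1 := by
      have := Complex.sq_norm z
      rw [h1, Complex.normSq_apply] at this
      nlinarith
    simp only [Complex.div_re, Complex.add_re, Complex.one_re, Complex.sub_re, Complex.add_im,
      Complex.one_im, Complex.sub_im]
    rw [← add_div]
    have : (1 + z.re) * (1 - z.re) + (0 + z.im) * (0 - z.im) = 0 := by nlinarith
    rw [this, zero_div]
  · have hζ : IsPrimitiveRoot (C μ : ℂ[X]) (m + 1) := hμ.map_of_injective C_injective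
    have h1 := X_pow_sub_C_eq_prod hζ (α := (1 - X : ℂ[X])) (Nat.succ_pos m) rfl
    have h2 := congrArg (fun p => Polynomial.eval (1 + X : ℂ[X]) (derivative p)) h1
    simp only [derivative_sub, derivative_X_pow, derivative_C, sub_zero, derivative_prod_finset,
      derivative_X, mul_one, eval_mul, eval_C, eval_pow, eval_X, eval_finsetSum, eval_prod,
      eval_sub, Nat.add_sub_cancel] at h2
    have hf : ∀ l ∈ range m, (1 + X : ℂ[X]) - C μ ^ (l + 1) * (1 - X) =
        C (1 - μ ^ (l + 1)) * (1 + C ((1 + μ ^ (l + 1)) / (1 - μ ^ (l + 1))) * X) := by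
      intro l hl
      rw [mul_add, ← mul_assoc, ← C_mul, mul_div_cancel₀ _ (hne l hl)]
      simp only [map_sub, map_add, map_one, map_pow]
      ring
    have hprod := hμ.prod_one_sub_pow_eq_order
    have hinj : Function.Injective (fun l : ℕ => l + 1) := add_left_injective 1
    have hr : range (m + 1) = insert 0 ((range m).image (fun l => l + 1)) := by
      ext x; simp only [mem_range, mem_insert, mem_image]
      constructor
      · intro h
        rcases x with _ | x
        · exact Or.inl rfl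
        · exact Or.inr ⟨x, by omega, rfl⟩
      · rintro (rfl | ⟨y, hy, rfl⟩) <;> omega
    have h0 : (0 : ℕ) ∉ (range m).image (fun l => l + 1) := by simp
    rw [hr, sum_insert h0, erase_insert h0, prod_image hinj.injOn, sum_image hinj.injOn,
      prod_congr rfl hf, prod_mul_distrib, ← map_prod C, hprod] at h2
    have h3 : ∀ j ∈ range m,
        ∏ l ∈ (insert 0 ((range m).image (fun l => l + 1))).erase (j + 1),
          ((1 + X : ℂ[X]) - C μ ^ l * (1 - X)) =
        C ((m : ℂ) + 1) * (C (1 + (1 + μ ^ (j + 1)) / (1 - μ ^ (j + 1))) * X *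
          ∏ l ∈ (range m).erase j, (1 + C ((1 + μ ^ (l + 1)) / (1 - μ ^ (l + 1))) * X)) := by
      intro j hj
      rw [erase_insert_of_ne (by omega), prod_insert (by simp),
        ← image_erase hinj, prod_image hinj.injOn,
        prod_congr rfl (fun l hl => hf l (mem_of_mem_erase hl)), prod_mul_distrib, ← map_prod C]
      have h4 : (1 - μ ^ (j + 1)) * ∏ l ∈ (range m).erase j, (1 - μ ^ (l + 1)) = (m : ℂ) + 1 := by
        rw [mul_prod_erase (range m) (fun l => 1 - μ ^ (l + 1)) hj, hprod]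
      have h5 : ((m : ℂ) + 1) * (1 + (1 + μ ^ (j + 1)) / (1 - μ ^ (j + 1))) =
          2 * ∏ l ∈ (range m).erase j, (1 - μ ^ (l + 1)) := by
        have := hne j hj
        rw [← h4]; field_simp; ring
      have h7 : (C ((m : ℂ) + 1) : ℂ[X]) * C (1 + (1 + μ ^ (j + 1)) / (1 - μ ^ (j + 1))) =
          2 * C (∏ l ∈ (range m).erase j, (1 - μ ^ (l + 1))) := by
        rw [← C_mul, h5, C_mul]; rfl
      simp only [pow_zero]
      linear_combination (-(X * ∏ l ∈ (range m).erase j,
        (1 + C ((1 + μ ^ (l + 1)) / (1 - μ ^ (l + 1))) * X : ℂ[X]))) * h7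
    rw [sum_congr rfl h3, ← mul_sum, ← mul_add] at h2
    have h6 : (C ((m : ℂ) + 1) : ℂ[X]) ≠ 0 := by
      rw [Ne, C_eq_zero]; exact_mod_cast Nat.succ_ne_zero m
    apply mul_left_cancel₀ h6
    rw [← h2]
    congr 1
    simp

/-- The abstract inequality. `Bd Y M` is to be read as: the norm of `Y` is at most `M`. -/
lemma abstract_bound {V : Type*} [AddCommGroup V] [Module ℂ V] (y : Module.End ℂ V)
    (Bd : V → ℝ → Prop)
    (hdis : ∀ w : ℂ, w.re = 0 → ∀ Y M, Bd (Y + w • y Y) M → Bd Y M)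
    (hsurj : ∀ w : ℂ, w.re = 0 → ∀ Z, ∃ Y, Y + w • y Y = Z)
    (φ : V →ₗ[ℂ] ℂ) (hφ : ∀ Y M, Bd Y M → (φ Y).re ≤ M)
    (e : V) (r : ℝ) (he : Bd e r) (h0 : φ e = r) (h1 : φ (y e) = 0)
    (h2 : 0 ≤ (φ (y (y e))).re) (m : ℕ) (M : ℝ) (c : ℂ)
    (hc : ∀ Y M, Bd (c • Y) (‖c‖ * M) → Bd Y M)
    (hM : Bd (c • ((1 + y) ^ (m + 1)) e) (‖c‖ * M)) : r ≤ M := by
  classical
  obtain ⟨w, hw, hid⟩ := exists_weights m
  choose Z hZ using fun j => hsurj (w j) (hw j) e
  have hg : ∀ (j : ℕ) (Y : V), aeval y (1 + C (w j) * X : ℂ[X]) Y = Y + w j • y Y := by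
    intro j Y; simp
  have hprod : ∀ (s : Finset ℕ) (Y : V) (M : ℝ),
      Bd (aeval y (∏ l ∈ s, (1 + C (w l) * X : ℂ[X])) Y) M → Bd Y M := by
    intro s
    induction s using Finset.induction_on with
    | empty => intro Y M h; simpa using h
    | insert a s ha ih =>
      intro Y M h
      rw [prod_insert ha, map_mul, Module.End.mul_apply, hg] at h
      exact ih Y M (hdis _ (hw a) _ _ h)
  set Y : V := (e + y e) + ∑ j ∈ range m, (1 + w j) • (y (Z j) + y (y (Z j))) with hY
  have hFY : aeval y (∏ l ∈ range m, (1 + C (w l) * X : ℂ[X])) Y = ((1 + y) ^ (m + 1)) e := by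
    have e1 : ((1 + y) ^ (m + 1)) = aeval y ((1 + X : ℂ[X]) ^ m * (1 + X)) := by
      simp [pow_succ]
    rw [e1, hid, add_mul, map_add (aeval y), LinearMap.add_apply, hY, map_add, map_mul,
      Module.End.mul_apply, sum_mul, map_sum, map_sum, LinearMap.sum_apply]
    congr 1
    · simp
    · refine sum_congr rfl fun j hj => ?_
      have e2 : (1 + w j) • (y (Z j) + y (y (Z j))) =
          aeval y (C (1 + w j) * X * (1 + X) : ℂ[X]) (Z j) := by
        simp [mul_add, add_smul, smul_add]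
      rw [e2, ← Module.End.mul_apply, ← map_mul, ← hZ j, ← hg, ← Module.End.mul_apply, ← map_mul,
        ← mul_prod_erase (range m) (fun l => (1 + C (w l) * X : ℂ[X])) hj]
      congr 2
      ring
  have hBY : Bd Y M := hprod (range m) Y M (by rw [hFY]; exact hc _ _ hM)
  refine le_trans ?_ (hφ Y M hBY)
  rw [hY]
  simp only [map_add, map_sum, map_smul, h0, h1, add_zero, Complex.add_re, Complex.ofReal_re,
    Complex.re_sum, smul_eq_mul]
  refine le_add_of_nonneg_right (sum_nonneg fun j _ => ?_)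
  have a1 : φ (Z j) + w j * φ (y (Z j)) = r := by
    rw [← h0, ← hZ j]; simp
  have a2 : φ (y (Z j)) + w j * φ (y (y (Z j))) = 0 := by
    rw [← h1, ← hZ j]; simp
  have a3 : (φ (Z j)).re ≤ r := hφ _ _ (hdis _ (hw j) _ _ (by rw [hZ j]; exact he))
  by_cases hw0 : w j = 0
  · have a4 : Z j = e := by simpa [hw0] using hZ j
    rw [hw0, a4, h1]
    simpa using h2
  · have him : (w j).im ≠ 0 := fun h => hw0 (Complex.ext (hw j) h)
    have a5 : (1 + w j) * (φ (y (Z j)) + φ (y (y (Z j)))) =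
        (1 - w j ^ 2) * φ (y (y (Z j))) := by linear_combination (1 + w j) * a2
    have a6 : w j ^ 2 * φ (y (y (Z j))) = φ (Z j) - r := by
      linear_combination w j * a2 - a1
    have a7 : w j ^ 2 = ((-(w j).im ^ 2 : ℝ) : ℂ) := by
      apply Complex.ext <;> simp [sq, hw j]
    rw [a5, a7]
    rw [a7] at a6
    have a8 := congrArg Complex.re a6
    rw [Complex.re_ofReal_mul, Complex.sub_re, Complex.ofReal_re] at a8
    have a9 : (1 - ((-(w j).im ^ 2 : ℝ) : ℂ)) = ((1 + (w j).im ^ 2 : ℝ) : ℂ) := by push_cast; ring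
    rw [a9, Complex.re_ofReal_mul]
    have a10 : 0 < (w j).im ^ 2 := by positivity
    have a11 : 0 ≤ (φ (y (y (Z j)))).re := by
      by_contra hneg
      push Not at hneg
      nlinarith
    positivity

end Pool.Agent.P.MP_08c3d6_an
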