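import Mathlib
import Pool.Agent.P.MP_08c3d6_an.Poly
import Pool.Agent.P.MP_08c3d6_an.KyFan

/-!
The averaged Ky Fan inequality for `Q_k`.
-/

set_option autoImplicit false

namespace Pool.Agent.P.MP_08c3d6_an

open Finset

variable {E : Type*} [NormedAddCommGroup E] [InnerProductSpace ℂ E] [FiniteDimensional ℂ E]

omit [FiniteDimensional ℂ E] in
lemma Q_eq (A B : E →ₗ[ℂ] E) (k : ℕ) :
    ((LinearMap.mulLeft ℂ A + LinearMap.mulRight ℂ B : Module.End ℂ (E →ₗ[ℂ] E)) ^ k) 1 =
      ∑ i ∈ range (k + 1), (k.choose i) • (A ^ i * B ^ (k - i)) := by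
  rw [(LinearMap.commute_mulLeft_right A B).add_pow, LinearMap.sum_apply]
  refine sum_congr rfl fun i _ => ?_
  rw [LinearMap.pow_mulLeft, LinearMap.pow_mulRight]
  rw [Module.End.mul_apply, Module.End.mul_apply, Module.End.natCast_apply, map_nsmul, map_nsmul]
  simp

theorem main {n : ℕ} (hn : Module.finrank ℂ E = n) (A B : E →ₗ[ℂ] E)
    (hA : A.IsSymmetric) (hB : B.IsSymmetric) (k : ℕ) (hk : 1 ≤ k) (J : Finset (Fin n)) :
    |∑ j ∈ J, (hA.add hB).eigenvalues hn j| ^ k ≤
      (J.card : ℝ) ^ (k - 1) * ∑ j ∈ range J.card,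
        (∑ i ∈ range (k + 1), (k.choose i) • (A ^ i * B ^ (k - i))).singularValues j := by
  classical
  obtain ⟨m, rfl⟩ : ∃ m, k = m + 1 := ⟨k - 1, by omega⟩
  set Q := ∑ i ∈ range (m + 1 + 1), ((m + 1).choose i) • (A ^ i * B ^ (m + 1 - i)) with hQ
  set S := ∑ j ∈ range J.card, Q.singularValues j with hS
  have hS0 : 0 ≤ S := sum_nonneg fun j _ => Q.singularValues_nonneg j
  set s := ∑ j ∈ J, (hA.add hB).eigenvalues hn j with hs
  by_cases hs0 : s = 0
  · rw [hs0, abs_zero, zero_pow (by omega)]; positivity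
  have hJ : J.Nonempty := by
    rw [nonempty_iff_ne_empty]; rintro rfl; exact hs0 (by simp [hs])
  have : Nonempty J := hJ.to_subtype
  have hr1 : (1 : ℝ) ≤ J.card := by exact_mod_cast hJ.card_pos
  have hr0 : (0 : ℝ) < J.card := by linarith
  have hrn : J.card ≤ n := by simpa using J.card_le_univ
  set c : ℝ := s / J.card with hc
  have hc0 : c ≠ 0 := div_ne_zero hs0 hr0.ne'
  have hc0' : (c : ℂ) ≠ 0 := by exact_mod_cast hc0
  set A' : E →ₗ[ℂ] E := ((c⁻¹ : ℝ) : ℂ) • A - 1 with hA'
  set B' : E →ₗ[ℂ] E := ((c⁻¹ : ℝ) : ℂ) • B with hB'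
  have hA's : A'.IsSymmetric := by
    intro a b
    simp only [hA', LinearMap.sub_apply, LinearMap.smul_apply, Module.End.one_apply,
      inner_sub_left, inner_sub_right, inner_smul_left, inner_smul_right, Complex.conj_ofReal,
      hA a b]
  have hB's : B'.IsSymmetric := by
    intro a b
    simp only [hB', LinearMap.smul_apply, inner_smul_left, inner_smul_right, Complex.conj_ofReal,
      hB a b]
  set y : Module.End ℂ (E →ₗ[ℂ] E) := LinearMap.mulLeft ℂ A' + LinearMap.mulRight ℂ B' with hy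
  have hyY : ∀ Y, y Y = A' * Y + Y * B' := fun Y => by simp [hy]
  set v := (hA.add hB).eigenvectorBasis hn with hv
  set x : J → E := fun j => v j with hx
  have hxo : Orthonormal ℂ x := v.orthonormal.comp _ Subtype.val_injective
  have hxa : Adm (J.card : ℝ) x := by
    refine ⟨fun u => hxo.sum_inner_products_le u, ?_⟩
    simp [hxo.1]
  have hxx : ∀ j, inner ℂ (x j) (x j) = 1 := fun j => by
    rw [inner_self_eq_norm_sq_to_K, hxo.1 j]; simp
  have hH : ∀ j : J, A' (x j) + B' (x j) =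
      ((c⁻¹ * (hA.add hB).eigenvalues hn j - 1 : ℝ) : ℂ) • x j := by
    intro j
    have e1 := (hA.add hB).apply_eigenvectorBasis hn j
    rw [LinearMap.add_apply] at e1
    simp only [hA', hB', hx, hv, LinearMap.sub_apply, LinearMap.smul_apply, Module.End.one_apply]
    rw [sub_add_eq_add_sub, ← smul_add, e1, smul_smul]
    push_cast
    rw [sub_smul, one_smul]
    rfl
  have hdis : ∀ w : ℂ, w.re = 0 → ∀ Y M, Bd J (J.card : ℝ) (Y + w • y Y) M →
      Bd J (J.card : ℝ) Y M := by
    intro w hw Y M h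
    rw [hyY] at h
    exact bd_dissipative hr0.le A' B' hA's hB's w hw Y M h
  have hsurj : ∀ w : ℂ, w.re = 0 → ∀ Z, ∃ Y, Y + w • y Y = Z := by
    intro w hw
    have hinj : Function.Injective (1 + w • y : Module.End ℂ (E →ₗ[ℂ] E)) := by
      rw [injective_iff_map_eq_zero]
      intro Y hY
      refine eq_zero_of_bd (ι := J) hr1 Y (hdis w hw Y 0 ?_)
      have : Y + w • y Y = 0 := by simpa using hY
      rw [this]
      intro a b _ _
      simp
    intro Z
    obtain ⟨Y, hY⟩ := LinearMap.injective_iff_surjective.1 hinj Z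
    exact ⟨Y, by simpa using hY⟩
  have he : Bd J (J.card : ℝ) (1 : E →ₗ[ℂ] E) (J.card : ℝ) := by
    simpa using bd_of_opbound (ι := J) (r := (J.card : ℝ)) (1 : E →ₗ[ℂ] E) zero_le_one
      (fun u => by simp)
  have h0 : pr x x 1 = ((J.card : ℝ) : ℂ) := by
    simp [pr_apply, hxo.1]
  have h1 : pr x x (y 1) = 0 := by
    simp only [pr_apply, hyY, mul_one, one_mul, LinearMap.add_apply, hH, inner_smul_right, hxx]
    rw [← Complex.ofReal_sum, sum_sub_distrib, ← mul_sum,
      sum_coe_sort J (fun j => (hA.add hB).eigenvalues hn j), ← hs]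
    have : c⁻¹ * s - ∑ _j : J, (1 : ℝ) = 0 := by
      simp only [sum_const, card_univ, Fintype.card_coe, nsmul_eq_mul, mul_one, hc]
      field_simp
      ring
    rw [this]; simp
  have h2 : 0 ≤ (pr x x (y (y 1))).re := by
    rw [pr_apply, Complex.re_sum]
    refine sum_nonneg fun j _ => ?_
    have e1 : inner ℂ (x j) ((y (y 1)) (x j)) =
        (((c⁻¹ * (hA.add hB).eigenvalues hn j - 1) ^ 2 : ℝ) : ℂ) := by
      have e2 : (y (y 1)) (x j) = A' (A' (x j) + B' (x j)) + (A' + B') (B' (x j)) := by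
        simp [hyY, Module.End.mul_apply]
      rw [e2, inner_add_right, ← hA's, ← (hA's.add hB's), LinearMap.add_apply, hH,
        inner_smul_right, inner_smul_left, Complex.conj_ofReal, hA's, ← mul_add,
        ← inner_add_right, hH, inner_smul_right, hxx]
      push_cast; ring
    rw [e1, Complex.ofReal_re]
    positivity
  have hck : ((c : ℂ) ^ (m + 1)) ≠ 0 := pow_ne_zero _ hc0'
  have hnk : (0 : ℝ) < ‖(c : ℂ) ^ (m + 1)‖ := norm_pos_iff.2 hck
  have hT : (LinearMap.mulLeft ℂ A + LinearMap.mulRight ℂ B : Module.End ℂ (E →ₗ[ℂ] E)) =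
      (c : ℂ) • (1 + y) := by
    refine LinearMap.ext fun Y => ?_
    simp only [LinearMap.add_apply, LinearMap.smul_apply, Module.End.one_apply, hyY, hA', hB',
      LinearMap.mulLeft_apply, LinearMap.mulRight_apply, sub_mul, one_mul, smul_mul_assoc,
      mul_smul_comm, smul_add, smul_sub, smul_smul, Complex.ofReal_inv, mul_inv_cancel₀ hc0',
      one_smul]
    abel
  have hQ' : ((c : ℂ) ^ (m + 1)) • ((1 + y) ^ (m + 1)) 1 = Q := by
    rw [hQ, ← Q_eq, hT, smul_pow, LinearMap.smul_apply]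
  have key := abstract_bound y (Bd J (J.card : ℝ)) hdis hsurj (pr x x)
    (fun Y M h => h x x hxa hxa) 1 (J.card : ℝ) he h0 h1 h2 m (S / ‖(c : ℂ) ^ (m + 1)‖)
    ((c : ℂ) ^ (m + 1)) (fun Y M h => bd_smul hck Y h)
    (by rw [hQ', mul_div_cancel₀ _ hnk.ne']; exact bd_kyFan hn J.card hrn Q)
  rw [le_div_iff₀ hnk, norm_pow, Complex.norm_real, Real.norm_eq_abs] at key
  have e3 : |s| = J.card * |c| := by
    rw [hc, abs_div, abs_of_pos hr0]; field_simp
  rw [e3, mul_pow, Nat.add_sub_cancel, pow_succ (J.card : ℝ), mul_assoc]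
  exact mul_le_mul_of_nonneg_left key (by positivity)

theorem top {n : ℕ} (hn : Module.finrank ℂ E = n) (A B : E →ₗ[ℂ] E)
    (hA : A.IsSymmetric) (hB : B.IsSymmetric) (k : ℕ) (hk : 1 ≤ k) (l : Fin n) :
    |((hA.add hB).pow k).eigenvalues hn l| ≤
      (∑ i ∈ range (k + 1), (k.choose i) • (A ^ i * B ^ (k - i))).singularValues 0 := by
  classical
  set hH := hA.add hB
  set u := (hH.pow k).eigenvectorBasis hn l with hu
  have hu0 : u ≠ 0 := ((hH.pow k).eigenvectorBasis hn).toBasis.ne_zero l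
  have hpow : ∀ (p : ℕ) (w : E) (j : Fin n), (hH.eigenvectorBasis hn).repr (((A + B) ^ p) w) j =
      (hH.eigenvalues hn j : ℂ) ^ p * (hH.eigenvectorBasis hn).repr w j := by
    intro p
    induction p with
    | zero => intro w j; simp
    | succ p ih =>
      intro w j
      rw [pow_succ', Module.End.mul_apply, hH.eigenvectorBasis_apply_self_apply hn, ih, pow_succ']
      rw [mul_assoc]; rfl
  obtain ⟨j, hj⟩ : ∃ j, (hH.eigenvectorBasis hn).repr u j ≠ 0 := by
    by_contra hcon
    push Not at hcon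
    apply hu0
    apply (hH.eigenvectorBasis hn).repr.injective
    ext j
    simpa using hcon j
  have e1 := hpow k u j
  rw [hu, (hH.pow k).apply_eigenvectorBasis hn l, map_smul, PiLp.smul_apply, smul_eq_mul,
    ← hu] at e1
  have e2 := mul_right_cancel₀ hj e1
  have e3 : (hH.pow k).eigenvalues hn l = hH.eigenvalues hn j ^ k := by
    apply Complex.ofReal_injective
    rw [Complex.ofReal_pow]; exact e2
  have e4 := main hn A B hA hB k hk {j}
  rw [e3, abs_pow]
  simpa using e4

end Pool.Agent.P.MP_08c3d6_an
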