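import Mathlib
import Pool.Agent.P.MP_08c3d6_an.KyFan

/-!
The weak majorization `λ(H^6) ≺_w λ(Re Q_6) ≺_w σ(Q_6)`.
-/

set_option autoImplicit false

namespace Pool.Agent.P.MP_08c3d6_an

open Finset

/-! ### Real lemmas -/

/-- The first `m` indices. -/
def top' (n m : ℕ) : Finset (Fin n) := univ.filter fun i => (i : ℕ) < m

lemma mem_top' {n m : ℕ} {i : Fin n} : i ∈ top' n m ↔ (i : ℕ) < m := by simp [top']

lemma threshold {n : ℕ} (μ t : Fin n → ℝ) (hμ : Antitone μ) (m : ℕ) (h0 : ∀ l, 0 ≤ t l)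
    (h1 : ∀ l, t l ≤ 1) (hs : ∑ l, t l = (top' n m).card) :
    ∑ l, μ l * t l ≤ ∑ l ∈ top' n m, μ l := by
  classical
  obtain ⟨θ, hθ1, hθ2⟩ : ∃ θ : ℝ, (∀ l : Fin n, (l : ℕ) < m → θ ≤ μ l) ∧
      ∀ l : Fin n, ¬ (l : ℕ) < m → μ l ≤ θ := by
    by_cases hm : m < n
    · refine ⟨μ ⟨m, hm⟩, fun l hl => hμ ?_, fun l hl => hμ ?_⟩
      · exact Fin.le_def.2 hl.le
      · exact Fin.le_def.2 (not_lt.1 hl)
    · refine ⟨-∑ l, |μ l|, fun l _ => ?_, fun l hl => absurd (by have := l.2; omega) hl⟩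
      have := single_le_sum (f := fun l => |μ l|) (fun l _ => abs_nonneg _) (mem_univ l)
      linarith [neg_abs_le (μ l)]
  have e1 : ∀ l : Fin n, μ l * t l ≤ (if (l : ℕ) < m then μ l - θ else 0) + θ * t l := by
    intro l
    split_ifs with hl
    · nlinarith [hθ1 l hl, h1 l]
    · nlinarith [hθ2 l hl, h0 l]
  refine (sum_le_sum fun l _ => e1 l).trans ?_
  rw [sum_add_distrib, ← mul_sum, hs, ← sum_filter]
  change ∑ l ∈ top' n m, (μ l - θ) + _ ≤ _
  rw [sum_sub_distrib, sum_const, nsmul_eq_mul]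
  linarith

lemma abel {n : ℕ} (w d : Fin n → ℝ) (hw : Antitone w) (hd : ∀ m, 0 ≤ ∑ i ∈ top' n m, d i)
    (m : ℕ) : ∀ c : ℝ, (∀ i : Fin n, (i : ℕ) < m → c ≤ w i) →
      c * ∑ i ∈ top' n m, d i ≤ ∑ i ∈ top' n m, w i * d i := by
  classical
  induction m with
  | zero => intro c _; simp [top']
  | succ m ih =>
    intro c hc
    by_cases hm : m < n
    · have e : top' n (m + 1) = insert ⟨m, hm⟩ (top' n m) := by
        ext i
        simp only [mem_top', mem_insert, Fin.ext_iff]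
        omega
      have hn : (⟨m, hm⟩ : Fin n) ∉ top' n m := by simp [mem_top']
      have h1 := ih (w ⟨m, hm⟩) fun i hi => hw (Fin.le_def.2 hi.le)
      have h2 := hd (m + 1)
      have h3 := hc ⟨m, hm⟩ (by simp)
      rw [e, sum_insert hn] at h2
      rw [e, sum_insert hn, sum_insert hn]
      nlinarith
    · have e : top' n (m + 1) = top' n m := by
        ext i
        simp only [mem_top']
        have := i.2
        omega
      rw [e]
      exact ih c fun i hi => hc i (by omega)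

lemma offdiag {n : ℕ} (μ : Fin n → ℝ) (s : Fin n → Fin n → ℝ) (hμ : Antitone μ)
    (hs0 : ∀ i l, 0 ≤ s i l) (hs : ∀ i l, s i l = s l i) (m : ℕ) :
    0 ≤ ∑ i ∈ top' n m, ∑ l, (μ i - μ l) * s i l := by
  classical
  have e1 : ∀ i, ∑ l, (μ i - μ l) * s i l = ∑ l ∈ top' n m, (μ i - μ l) * s i l +
      ∑ l ∈ (top' n m)ᶜ, (μ i - μ l) * s i l := fun i => (sum_add_sum_compl _ _).symm
  simp only [e1, sum_add_distrib]
  have e2 : ∑ i ∈ top' n m, ∑ l ∈ top' n m, (μ i - μ l) * s i l = 0 := by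
    have e3 : ∑ i ∈ top' n m, ∑ l ∈ top' n m, (μ i - μ l) * s i l =
        -∑ i ∈ top' n m, ∑ l ∈ top' n m, (μ i - μ l) * s i l := by
      conv_lhs => rw [sum_comm]
      rw [← sum_neg_distrib]
      refine sum_congr rfl fun i _ => ?_
      rw [← sum_neg_distrib]
      refine sum_congr rfl fun l _ => ?_
      rw [hs l i]; ring
    linarith
  rw [e2, zero_add]
  refine sum_nonneg fun i hi => sum_nonneg fun l hl => mul_nonneg ?_ (hs0 i l)
  rw [mem_compl, mem_top'] at hl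
  rw [mem_top'] at hi
  exact sub_nonneg.2 (hμ (Fin.le_def.2 (by omega)))

/-! ### Quadratic forms -/

variable {E : Type*} [NormedAddCommGroup E] [InnerProductSpace ℂ E]

/-- The real quadratic form of an operator. -/
noncomputable def qf (M : E →ₗ[ℂ] E) (v : E) : ℝ := (inner ℂ v (M v)).re

lemma qf_add (M N : E →ₗ[ℂ] E) (v : E) : qf (M + N) v = qf M v + qf N v := by
  simp [qf]

lemma qf_sub (M N : E →ₗ[ℂ] E) (v : E) : qf (M - N) v = qf M v - qf N v := by
  simp [qf]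

lemma qf_nsmul (k : ℕ) (M : E →ₗ[ℂ] E) (v : E) : qf (k • M) v = k * qf M v := by
  induction k with
  | zero => simp [qf]
  | succ k ih => rw [succ_nsmul, qf_add, ih]; push_cast; ring

lemma qf_eigen (M : E →ₗ[ℂ] E) (v : E) (hv : ‖v‖ = 1) (μ : ℝ) (h : M v = (μ : ℂ) • v) :
    qf M v = μ := by
  rw [qf, h, inner_smul_right, inner_self_eq_norm_sq_to_K, hv]; simp

lemma qf_basis {n : ℕ} (b : OrthonormalBasis (Fin n) ℂ E) (M : E →ₗ[ℂ] E) (μ : Fin n → ℝ)
    (hM : ∀ l, M (b l) = (μ l : ℂ) • b l) (v : E) :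
    qf M v = ∑ l, μ l * ‖inner ℂ (b l) v‖ ^ 2 := by
  have e1 : inner ℂ v (M v) = ∑ l, ((μ l * ‖inner ℂ (b l) v‖ ^ 2 : ℝ) : ℂ) := by
    conv_lhs => rw [show M v = M (∑ l, inner ℂ (b l) v • b l) by rw [b.sum_repr']]
    rw [map_sum, inner_sum]
    refine sum_congr rfl fun l _ => ?_
    rw [map_smul, hM, inner_smul_right, inner_smul_right, ← inner_conj_symm v (b l),
      mul_left_comm, Complex.mul_conj, Complex.normSq_eq_norm_sq]
    push_cast; ring
  rw [qf, e1, ← Complex.ofReal_sum, Complex.ofReal_re]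

lemma parseval {n : ℕ} (b : OrthonormalBasis (Fin n) ℂ E) (v : E) :
    ∑ l, ‖inner ℂ (b l) v‖ ^ 2 = ‖v‖ ^ 2 := b.sum_sq_norm_inner_right v

/-- Ky Fan's maximum principle. -/
lemma kyFan_max {n : ℕ} (b u : OrthonormalBasis (Fin n) ℂ E) (M : E →ₗ[ℂ] E) (μ : Fin n → ℝ)
    (hμ : Antitone μ) (hM : ∀ l, M (b l) = (μ l : ℂ) • b l) (m : ℕ) :
    ∑ j ∈ top' n m, qf M (u j) ≤ ∑ l ∈ top' n m, μ l := by
  simp only [qf_basis b M μ hM]
  rw [sum_comm]
  simp only [← mul_sum]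
  refine threshold μ _ hμ m (fun l => sum_nonneg fun j _ => by positivity) (fun l => ?_) ?_
  · have e1 := parseval u (b l)
    rw [b.orthonormal.1 l, one_pow] at e1
    rw [← e1]
    simp only [norm_inner_symm (b l)]
    exact sum_le_sum_of_subset_of_nonneg (subset_univ _) fun j _ _ => by positivity
  · rw [sum_comm]
    simp only [parseval b, u.orthonormal.1, one_pow, sum_const, nsmul_eq_mul, mul_one]

/-- `tr (P [B,[B,M]]) ≥ 0` for a top spectral projection `P` of `M`. -/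
lemma dd_nonneg {n : ℕ} (b : OrthonormalBasis (Fin n) ℂ E) (B M : E →ₗ[ℂ] E)
    (hB : B.IsSymmetric) (hMs : M.IsSymmetric) (μ : Fin n → ℝ)
    (hμ : Antitone μ) (hM : ∀ l, M (b l) = (μ l : ℂ) • b l) (m : ℕ) :
    0 ≤ ∑ i ∈ top' n m, qf (B * B * M - 2 • (B * M * B) + M * B * B) (b i) := by
  have e1 : ∀ i, qf (B * B * M - 2 • (B * M * B) + M * B * B) (b i) =
      2 * ∑ l, (μ i - μ l) * ‖inner ℂ (b l) (B (b i))‖ ^ 2 := by
    intro i
    have a1 : qf (B * B * M) (b i) = μ i * ‖B (b i)‖ ^ 2 := by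
      rw [qf, Module.End.mul_apply, Module.End.mul_apply, hM, map_smul, ← hB, inner_smul_right,
        inner_self_eq_norm_sq_to_K, Complex.re_ofReal_mul]
      norm_cast
    have a2 : qf (M * B * B) (b i) = μ i * ‖B (b i)‖ ^ 2 := by
      rw [qf, Module.End.mul_apply, Module.End.mul_apply, ← hMs, hM, inner_smul_left, ← hB,
        inner_self_eq_norm_sq_to_K, Complex.conj_ofReal, Complex.re_ofReal_mul]
      norm_cast
    have a3 : qf (B * M * B) (b i) = qf M (B (b i)) := by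
      rw [qf, qf, Module.End.mul_apply, Module.End.mul_apply, ← hB]
    rw [qf_add, qf_sub, qf_nsmul, a1, a2, a3, qf_basis b M μ hM, ← parseval b (B (b i))]
    simp only [sub_mul, sum_sub_distrib, ← mul_sum]
    push_cast; ring
  simp only [e1, ← mul_sum]
  refine mul_nonneg zero_le_two (offdiag μ (fun i l => ‖inner ℂ (b l) (B (b i))‖ ^ 2) hμ
    (fun i l => by positivity) (fun i l => ?_) m)
  rw [← hB, norm_inner_symm]

/-! ### Algebraic identities -/

section Alg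

variable {R : Type*} [Ring R]

/-- `Q_2`. -/
def q2 (A B : R) : R := A * A + 2 • (A * B) + B * B
/-- `Q_2^*`. -/
def q2' (A B : R) : R := A * A + 2 • (B * A) + B * B
/-- `Q_3`. -/
def q3 (A B : R) : R := A * A * A + 3 • (A * A * B) + 3 • (A * B * B) + B * B * B
/-- `Q_3^*`. -/
def q3' (A B : R) : R := A * A * A + 3 • (B * A * A) + 3 • (B * B * A) + B * B * B
/-- `Q_6`. -/
def q6 (A B : R) : R := A ^ 6 + 6 • (A ^ 5 * B) + 15 • (A ^ 4 * B ^ 2) + 20 • (A ^ 3 * B ^ 3) +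
  15 • (A ^ 2 * B ^ 4) + 6 • (A * B ^ 5) + B ^ 6
/-- `Q_6^*`. -/
def q6' (A B : R) : R := A ^ 6 + 6 • (B * A ^ 5) + 15 • (B ^ 2 * A ^ 4) + 20 • (B ^ 3 * A ^ 3) +
  15 • (B ^ 4 * A ^ 2) + 6 • (B ^ 5 * A) + B ^ 6
/-- The intermediate Hermitian operator of degree four. -/
def e3 (A B : R) : R := 2 • ((A + B) * q3 A B) + 2 • (q3' A B * (A + B)) - q2' A B * q2 A B
/-- `[B,[B,M]]`. -/
def dd (B M : R) : R := B * B * M - 2 • (B * M * B) + M * B * B

lemma id2 (A B : R) : q2 A B + q2' A B = 2 • ((A + B) * (A + B)) := by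
  unfold q2 q2'; noncomm_ring

lemma id4 (A B : R) : e3 A B = 3 • (q2' A B * q2 A B) + 2 • dd B ((A + B) * (A + B)) := by
  unfold e3 dd q2 q2' q3 q3'; noncomm_ring

lemma id6 (A B : R) : q6 A B + q6' A B = 2 • (q3' A B * q3 A B) + 3 • dd B (e3 A B) := by
  unfold e3 dd q2 q2' q3 q3' q6 q6'; noncomm_ring

lemma q6_eq (A B : R) :
    ∑ i ∈ range (6 + 1), (Nat.choose 6 i) • (A ^ i * B ^ (6 - i)) = q6 A B := by
  simp only [sum_range_succ, range_zero, sum_empty, q6]
  norm_num [Nat.choose]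
  abel

end Alg

/-! ### The operator inequalities -/

section Main

variable {A B : E →ₗ[ℂ] E}

lemma adj2 (hA : A.IsSymmetric) (hB : B.IsSymmetric) (x y : E) :
    inner ℂ (q2 A B x) y = inner ℂ x (q2' A B y) := by
  simp only [q2, q2', LinearMap.add_apply, Module.End.mul_apply, two_smul, inner_add_left,
    inner_add_right, hA _ _, hB _ _]

lemma adj3 (hA : A.IsSymmetric) (hB : B.IsSymmetric) (x y : E) :
    inner ℂ (q3 A B x) y = inner ℂ x (q3' A B y) := by
  simp only [q3, q3', LinearMap.add_apply, Module.End.mul_apply, succ_nsmul, zero_nsmul, zero_add,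
    inner_add_left, inner_add_right, hA _ _, hB _ _]

lemma adj6 (hA : A.IsSymmetric) (hB : B.IsSymmetric) (x y : E) :
    inner ℂ (q6 A B x) y = inner ℂ x (q6' A B y) := by
  simp only [q6, q6', LinearMap.add_apply, Module.End.mul_apply, succ_nsmul, zero_nsmul, zero_add,
    pow_succ, pow_zero, one_mul, inner_add_left, inner_add_right, hA _ _, hB _ _]

lemma qf_adj {M M' : E →ₗ[ℂ] E} (h : ∀ x y, inner ℂ (M x) y = inner ℂ x (M' y)) (v : E) :
    qf M' v = qf M v := by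
  rw [qf, qf, ← h, ← inner_conj_symm, Complex.conj_re]

lemma qf_mul {M M' : E →ₗ[ℂ] E} (h : ∀ x y, inner ℂ (M x) y = inner ℂ x (M' y))
    (N : E →ₗ[ℂ] E) (v : E) : qf (M' * N) v = (inner ℂ (M v) (N v)).re := by
  rw [qf, Module.End.mul_apply, ← h]

lemma re_inner_self (v : E) : (inner ℂ v v).re = ‖v‖ ^ 2 := by
  rw [inner_self_eq_norm_sq_to_K]; norm_cast

lemma qf_q2 (hA : A.IsSymmetric) (hB : B.IsSymmetric) (v : E) :
    qf (q2 A B) v = ‖(A + B) v‖ ^ 2 := by
  have e1 := congrArg (fun M => qf M v) (id2 A B)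
  simp only [qf_add, qf_nsmul] at e1
  rw [qf_adj (adj2 hA hB), qf_mul (hA.add hB), re_inner_self] at e1
  push_cast at e1
  linarith

lemma e3_symm (hA : A.IsSymmetric) (hB : B.IsSymmetric) : (e3 A B).IsSymmetric := by
  intro x y
  have hH := hA.add hB
  have a2 : ∀ x y, inner ℂ (q2' A B x) y = inner ℂ x (q2 A B y) := fun x y => by
    rw [← inner_conj_symm, ← adj2 hA hB, inner_conj_symm]
  have a3 : ∀ x y, inner ℂ (q3' A B x) y = inner ℂ x (q3 A B y) := fun x y => by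
    rw [← inner_conj_symm, ← adj3 hA hB, inner_conj_symm]
  unfold e3
  generalize A + B = H at hH ⊢
  simp only [LinearMap.sub_apply, LinearMap.add_apply, Module.End.mul_apply, two_smul,
    inner_add_left, inner_add_right, inner_sub_left, inner_sub_right, hH _ _, adj2 hA hB,
    adj3 hA hB, a2, a3]
  ring

lemma norm_sub_smul_sq (x y : E) (c : ℝ) :
    ‖x - (c : ℂ) • y‖ ^ 2 = ‖x‖ ^ 2 - 2 * c * (inner ℂ y x).re + c ^ 2 * ‖y‖ ^ 2 := by
  rw [norm_sub_rev, @norm_sub_sq ℂ, norm_smul, inner_smul_left, Complex.conj_ofReal,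
    Complex.norm_real, mul_pow, Real.norm_eq_abs, sq_abs]
  simp only [RCLike.re_to_complex, Complex.re_ofReal_mul]
  ring

/-- The tangent-line inequality `G_3 ≥ (ℓ/2) E_3 - ℓ^3/2`. -/
lemma tangent (hA : A.IsSymmetric) (hB : B.IsSymmetric) (v : E) (hv : ‖v‖ = 1) (l : ℝ)
    (hl : 0 ≤ l) : l / 2 * qf (e3 A B) v - l ^ 3 / 2 ≤ ‖q3 A B v‖ ^ 2 := by
  have e1 := norm_sub_smul_sq (q3 A B v) ((A + B) v) l
  have e2 := norm_sub_smul_sq (q2 A B v) v l
  have e4 : (inner ℂ v (q2 A B v)).re = ‖(A + B) v‖ ^ 2 := qf_q2 hA hB v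
  have e5 : qf (e3 A B) v = 4 * (inner ℂ ((A + B) v) (q3 A B v)).re - ‖q2 A B v‖ ^ 2 := by
    rw [e3, qf_sub, qf_add, qf_nsmul, qf_nsmul, qf_mul (hA.add hB), qf_mul (adj3 hA hB),
      qf_mul (adj2 hA hB), re_inner_self, ← inner_conj_symm (q3 A B v), Complex.conj_re]
    push_cast; ring
  rw [e4, hv] at e2
  rw [e5]
  have p1 := sq_nonneg ‖q3 A B v - (l : ℂ) • (A + B) v‖
  have p2 := mul_nonneg hl (sq_nonneg ‖q2 A B v - (l : ℂ) • v‖)
  rw [e1] at p1
  rw [e2] at p2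
  nlinarith

variable [FiniteDimensional ℂ E]

/-- Main estimate: an orthonormal basis `f` testing `Re Q_6`. -/
theorem six_core {n : ℕ} (hn : Module.finrank ℂ E = n) (hA : A.IsSymmetric) (hB : B.IsSymmetric) :
    ∃ f : OrthonormalBasis (Fin n) ℂ E, ∀ r : ℕ,
      ∑ j ∈ top' n r, ((hA.add hB).pow 6).eigenvalues hn j ≤ ∑ i ∈ top' n r, qf (q6 A B) (f i) := by
  have hH := hA.add hB
  have hK : ((A + B) * (A + B)).IsSymmetric := by simpa only [pow_two] using hH.pow 2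
  have hE := e3_symm hA hB
  set e := hK.eigenvectorBasis hn
  set y := hK.eigenvalues hn
  have hey : ∀ i, ((A + B) * (A + B)) (e i) = (y i : ℂ) • e i := hK.apply_eigenvectorBasis hn
  have hy : Antitone y := hK.eigenvalues_antitone hn
  set f := hE.eigenvectorBasis hn
  set μ := hE.eigenvalues hn
  have hfμ : ∀ i, e3 A B (f i) = (μ i : ℂ) • f i := hE.apply_eigenvectorBasis hn
  have hμ : Antitone μ := hE.eigenvalues_antitone hn
  have hyn : ∀ i, y i = ‖(A + B) (e i)‖ ^ 2 := fun i => by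
    rw [← qf_eigen _ _ (e.orthonormal.1 i) _ (hey i), qf_mul hH, re_inner_self]
  have hy0 : ∀ i, 0 ≤ y i := fun i => by rw [hyn]; positivity
  have step1 : ∀ m, 0 ≤ ∑ i ∈ top' n m, (μ i - 3 * y i ^ 2) := by
    intro m
    have a1 := kyFan_max f e _ μ hμ hfμ m
    have a2 := dd_nonneg e B _ hB hK y hy hey m
    have a3 : ∀ i, 3 * y i ^ 2 + 2 * qf (dd B ((A + B) * (A + B))) (e i) ≤ qf (e3 A B) (e i) := by
      intro i
      rw [id4, qf_add, qf_nsmul, qf_nsmul, qf_mul (adj2 hA hB), re_inner_self]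
      have b1 := norm_sub_smul_sq (q2 A B (e i)) (e i) (y i)
      have b2 : (inner ℂ (e i) (q2 A B (e i))).re = y i := by rw [hyn]; exact qf_q2 hA hB _
      rw [b2, e.orthonormal.1 i] at b1
      have b3 := sq_nonneg ‖q2 A B (e i) - (y i : ℂ) • e i‖
      push_cast
      nlinarith
    have a4 := sum_le_sum fun i (_ : i ∈ top' n m) => a3 i
    rw [sum_add_distrib, ← mul_sum, ← mul_sum] at a4
    rw [sum_sub_distrib, ← mul_sum]
    change 0 ≤ ∑ i ∈ top' n m, qf (dd B ((A + B) * (A + B))) (e i) at a2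
    linarith
  refine ⟨f, fun r => ?_⟩
  have step2 : ∑ i ∈ top' n r, y i ^ 3 ≤ ∑ i ∈ top' n r, qf (q6 A B) (f i) := by
    have a1 := abel y _ hy step1 r 0 fun i _ => hy0 i
    have a2 := dd_nonneg f B _ hB hE μ hμ hfμ r
    change 0 ≤ ∑ i ∈ top' n r, qf (dd B (e3 A B)) (f i) at a2
    have a3 : ∀ i, y i ^ 3 + 1 / 2 * (y i * (μ i - 3 * y i ^ 2)) +
        3 / 2 * qf (dd B (e3 A B)) (f i) ≤ qf (q6 A B) (f i) := by
      intro i
      have b1 := congrArg (fun M => qf M (f i)) (id6 A B)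
      simp only [qf_add, qf_nsmul] at b1
      rw [qf_adj (adj6 hA hB), qf_mul (adj3 hA hB), re_inner_self] at b1
      have b2 := tangent hA hB (f i) (f.orthonormal.1 i) (y i) (hy0 i)
      rw [qf_eigen _ _ (f.orthonormal.1 i) _ (hfμ i)] at b2
      push_cast at b1
      nlinarith
    have a4 := sum_le_sum fun i (_ : i ∈ top' n r) => a3 i
    rw [sum_add_distrib, sum_add_distrib, ← mul_sum, ← mul_sum] at a4
    linarith
  refine le_trans ?_ step2
  have h6 := hH.pow 6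
  have a1 : ∀ i, ((A + B) ^ 6) (e i) = ((y i ^ 3 : ℝ) : ℂ) • e i := by
    intro i
    have : (A + B) ^ 6 = ((A + B) * (A + B)) * (((A + B) * (A + B)) * ((A + B) * (A + B))) := by
      noncomm_ring
    rw [this]
    generalize (A + B) * (A + B) = K at hey
    simp only [Module.End.mul_apply, hey, map_smul, smul_smul]
    congr 1; push_cast; ring
  have a2 := kyFan_max e (h6.eigenvectorBasis hn) _ (fun i => y i ^ 3)
    (fun i j hij => pow_le_pow_left₀ (hy0 j) (hy hij) 3) a1 r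
  refine le_trans (le_of_eq (sum_congr rfl fun j _ => ?_)) a2
  exact (qf_eigen _ _ ((h6.eigenvectorBasis hn).orthonormal.1 j) _
    (h6.apply_eigenvectorBasis hn j)).symm

/-- `λ(H^6) ≺_w σ(Q_6)`. -/
theorem six {n : ℕ} (hn : Module.finrank ℂ E = n) (hA : A.IsSymmetric) (hB : B.IsSymmetric)
    (r : ℕ) (hr : r ≤ n) :
    ∑ j ∈ univ.filter (fun j : Fin n => (j : ℕ) < r), ((hA.add hB).pow 6).eigenvalues hn j ≤
      ∑ j ∈ range r,
        (∑ i ∈ range (6 + 1), (Nat.choose 6 i) • (A ^ i * B ^ (6 - i))).singularValues j := by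
  obtain ⟨f, hf⟩ := six_core hn hA hB
  rw [q6_eq]
  refine (hf r).trans ?_
  set x : top' n r → E := fun j => f j with hx
  have hxo : Orthonormal ℂ x := f.orthonormal.comp _ Subtype.val_injective
  have hc : (top' n r).card = r := by
    rw [top', Fin.card_filter_val_lt]; omega
  have hxa : Adm (r : ℝ) x := by
    refine ⟨fun u => hxo.sum_inner_products_le u, ?_⟩
    simp [hxo.1, hc]
  have := bd_kyFan (ι := top' n r) hn r hr (q6 A B) x x hxa hxa
  rw [pr_apply, Complex.re_sum] at this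
  rw [← sum_coe_sort]
  exact this

/-- `λ(H^6) ≺_w λ(Re Q_6)`. -/
theorem six_re {n : ℕ} (hn : Module.finrank ℂ E = n) (hA : A.IsSymmetric) (hB : B.IsSymmetric)
    (R : E →ₗ[ℂ] E) (hR : R.IsSymmetric)
    (hRQ : 2 • R = (∑ i ∈ range (6 + 1), (Nat.choose 6 i) • (A ^ i * B ^ (6 - i))) +
      LinearMap.adjoint (∑ i ∈ range (6 + 1), (Nat.choose 6 i) • (A ^ i * B ^ (6 - i)))) (r : ℕ) :
    ∑ j ∈ univ.filter (fun j : Fin n => (j : ℕ) < r), ((hA.add hB).pow 6).eigenvalues hn j ≤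
      ∑ j ∈ univ.filter (fun j : Fin n => (j : ℕ) < r), hR.eigenvalues hn j := by
  obtain ⟨f, hf⟩ := six_core hn hA hB
  rw [q6_eq] at hRQ
  refine (hf r).trans (le_trans (le_of_eq (sum_congr rfl fun i _ => ?_))
    (kyFan_max _ f R _ (hR.eigenvalues_antitone hn) (hR.apply_eigenvectorBasis hn) r))
  have e1 := congrArg (fun M => qf M (f i)) hRQ
  simp only [qf_add, qf_nsmul] at e1
  rw [qf_adj (M := q6 A B) (fun x y => (LinearMap.adjoint_inner_right _ x y).symm)] at e1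
  push_cast at e1
  linarith

end Main

end Pool.Agent.P.MP_08c3d6_an
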